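import Pool.Agent.H37.MHD.Defs

/-!
# MP_59296a_an: data of one step of the iteration
-/

open MeasureTheory Set Filter Topology
open scoped ContDiff
open H36.MHD

noncomputable section

namespace H37.MHD

variable {B : Bg}

/-- `C_i = ∑_b cos (λ μ_b h_i^b)` -/
def Stage.CC (st : Stage B) (lam : ℝ) (i : Fin 2) (z : X) : ℝ :=
  ∑ b, Real.cos (lam * (mu b * st.h i b z))

/-- the new force `F_k = (2/ε) ∑_{a,j} χ_a E_j cos (λ μ_a h_j^a)` where `χ_a = g N_a` -/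
def Stage.FF (st : Stage B) (ε : ℝ) (g : X → ℝ) (lam : ℝ) (k : Fin 3) (z : X) : ℝ :=
  2 / ε * ∑ a, ∑ j, g z * st.NN a z * st.E j k z * Real.cos (lam * (mu a * st.h j a z))

/-- the oscillating part of the error, to be cancelled by the corrector -/
def Stage.RR (st : Stage B) (ε : ℝ) (chi g : X → ℝ) (lam : ℝ) (i : Fin 2) (k : Fin 3) (z : X) : ℝ :=
  (st.dens i z + ε * st.CC lam i z) * st.FF ε g lam k z
    - chi z * (st.E i k z + ε * st.CC lam i z * acc (st.u i) st.f k z)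

/-- Everything that is chosen in one step (before the frequency `λ`). -/
structure StepData (st : Stage B) (ε : ℝ) where
  /-- cut-off level -/
  sp : ℝ
  sp_pos : 0 < sp
  sp_le : 2 * sp ≤ st.s
  /-- cut-off -/
  chi : X → ℝ
  chi_smooth : ContDiff ℝ ∞ chi
  chi_range : ∀ z, 0 ≤ chi z ∧ chi z ≤ 1
  chi_supp : ∀ z, chi z ≠ 0 → sp ^ 2 ≤ SS B z ∧ |z.1| ≤ 5 / 4 * B.T
  chi_one : ∀ z, |z.1| ≤ B.T → 4 * sp ^ 2 ≤ SS B z → chi z = 1
  /-- `g = χ / ∑ N_a` -/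
  g : X → ℝ
  g_smooth : ContDiff ℝ ∞ g
  g_nonneg : ∀ z, 0 ≤ g z
  g_eq : ∀ z, g z * ∑ a, st.NN a z = chi z
  /-- velocity correctors (depending on the frequency) -/
  v : ℝ → Fin 2 → Fin 3 → X → ℝ
  /-- pressure correctors -/
  q : ℝ → Fin 2 → X → ℝ
  v_smooth : ∀ lam i k, ContDiff ℝ ∞ (v lam i k)
  q_smooth : ∀ lam i, ContDiff ℝ ∞ (q lam i)
  v_div : ∀ lam i z, ∑ k, dx k (v lam i k) z = 0
  v_supp : ∀ lam i z, (SS B z < sp ^ 2 ∨ 5 / 4 * B.T < |z.1|) →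
    g z = 0 ∧ q lam i z = 0 ∧ ∀ k, v lam i k z = 0
  /-- constant in all bounds -/
  C : ℝ
  C_nonneg : 0 ≤ C
  v_le : ∀ lam, 1 ≤ lam → ∀ i k z, |v lam i k z| ≤ C / lam ^ 2
  dv_le : ∀ lam, 1 ≤ lam → ∀ i k z, ‖fderiv ℝ (v lam i k) z‖ ≤ C / lam
  corr_le : ∀ lam, 1 ≤ lam → ∀ i k z,
    |-lap (v lam i k) z + dx k (q lam i) z - st.RR ε chi g lam i k z| ≤ C / lam

/-- `st'` is the next stage built from `sd` with frequency `lam`. -/
structure Next {st : Stage B} {ε : ℝ} (sd : StepData st ε) (lam : ℝ) (st' : Stage B) : Prop where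
  rho_eq : ∀ y, st'.rho y = st.rho y + ε * ∑ a, Real.cos (lam * (mu a * phi B a y))
  u_eq : ∀ i k z, st'.u i k z = st.u i k z + sd.v lam i k z
  f_eq : ∀ k z, st'.f k z = st.f k z + st.FF ε sd.g lam k z
  p_eq : ∀ i z, st'.p i z = st.p i z + sd.q lam i z

/-- the error left where nothing has been touched -/
def mm (B : Bg) (k : Fin 3) (z : X) : ℝ :=
  2 * (|3 * z.1 ^ 2 * B.w k z.2| + |z.1 ^ 6 * ∑ j, B.w j z.2 * pd j (B.w k) z.2|)
    + |z.1 ^ 3 * lap3 (B.w k) z.2|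

/-- the component in which the gradient of the phase `a` is bounded below -/
def kp (a : Fin 4) : Fin 3 := if h : a.val < 3 then ⟨a.val, h⟩ else 0

end H37.MHD
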