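import Mathlib
import Pool.Agent.H36.MHDDefs

/-!
# MP_59296a_an: stages of the iteration (helper37's plan)

Conventions: `V3 = Fin 3 → ℝ` (sup norm), `X = ℝ × V3` (time first), scalar components everywhere,
`dt`, `dx j` (functions on `X`) and `pd j` (functions on `V3`) from `H36.MHD`.
-/

open MeasureTheory Set Filter Topology
open scoped ContDiff
open H36.MHD

noncomputable section

namespace H37.MHD

/-- space-time -/
abbrev X : Type := ℝ × V3

/-- a vector field given by its scalar components -/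
def vec (U : Fin 3 → X → ℝ) (z : X) : V3 := fun k => U k z

/-- spatial Laplacian of a scalar function -/
def lap (g : X → ℝ) (z : X) : ℝ := ∑ j, dx j (dx j g) z

/-- spatial Laplacian of a scalar function on space -/
def lap3 (g : V3 → ℝ) (x : V3) : ℝ := ∑ j, pd j (pd j g) x

/-- sign of the fluid -/
def sg (i : Fin 2) : ℝ := if i = 0 then 1 else -1

/-- time profile of the background velocity -/
def aa (t : ℝ) : ℝ := t ^ 3

/-- primitive of `aa` -/
def th (t : ℝ) : ℝ := t ^ 4 / 4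

/-- Background profile: a small steady divergence free field `w`, supported in the ball of radius
`r ≤ 1` about `x0`, whose Laplacian vanishes wherever `w` does. -/
structure Bg where
  /-- final time -/
  T : ℝ
  hT : 0 < T
  /-- centre -/
  x0 : V3
  /-- radius of the support -/
  r : ℝ
  hr : 0 < r
  hr1 : r ≤ 1
  /-- Lipschitz constant of the profile -/
  kap : ℝ
  hkap : 0 ≤ kap
  hkT : kap * T ^ 4 ≤ 1 / 400
  /-- the profile -/
  w : Fin 3 → V3 → ℝ
  w_smooth : ∀ k, ContDiff ℝ ∞ (w k)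
  w_supp : ∀ k x, w k x ≠ 0 → ‖x - x0‖ ≤ r
  w_div : ∀ x, ∑ k, pd k (w k) x = 0
  w_lap : ∀ x, (∀ k, w k x = 0) → ∀ k, lap3 (w k) x = 0
  w_lip : ∀ x y, ‖(fun k => w k x) - (fun k => w k y)‖ ≤ kap * ‖x - y‖
  w_ne : ∃ x k, w k x ≠ 0

variable (B : Bg)

/-- the profile as a vector -/
def wv (x : V3) : V3 := fun k => B.w k x

/-- size function: squared displacement of the background -/
def SS (z : X) : ℝ := th z.1 ^ 2 * ∑ k, B.w k z.2 ^ 2

/-- bound for all spatial Lipschitz constants of the velocities -/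
def Kmax : ℝ := 1 / (40 * B.T)

/-- bound for the relative distance of the velocities to the background -/
def cmax : ℝ := 1 / (4 * B.T)

/-- `y` is the label (position at time `0`) of the particle of the flow of `U` which is at `x` at
time `t`; `β r` is its position at time `t (1 - r)`. -/
def BackPath (U : X → V3) (t : ℝ) (x y : V3) : Prop :=
  ∃ β : ℝ → V3, ContinuousOn β (Icc 0 1) ∧ β 1 = y ∧
    ∀ r ∈ Icc (0 : ℝ) 1, β r = x - ∫ q in (0 : ℝ)..r, t • U (t * (1 - q), β q)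

/-- A smooth stage of the iteration. -/
structure Stage where
  /-- common initial density -/
  rho : V3 → ℝ
  /-- velocities of the two solutions -/
  u : Fin 2 → Fin 3 → X → ℝ
  /-- common force -/
  f : Fin 3 → X → ℝ
  /-- pressures -/
  p : Fin 2 → X → ℝ
  /-- back-to-labels maps -/
  Y : Fin 2 → Fin 3 → X → ℝ
  rho_smooth : ContDiff ℝ ∞ rho
  u_smooth : ∀ i k, ContDiff ℝ ∞ (u i k)
  f_smooth : ∀ k, ContDiff ℝ ∞ (f k)
  p_smooth : ∀ i, ContDiff ℝ ∞ (p i)
  Y_smooth : ∀ i k, ContDiff ℝ ∞ (Y i k)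
  u_div : ∀ i z, ∑ k, dx k (u i k) z = 0
  /-- below this size nothing has been changed yet -/
  s : ℝ
  s_pos : 0 < s
  base : ∀ z, SS B z < s ^ 2 → ∀ i k,
    u i k z = sg i * aa z.1 * B.w k z.2 ∧ f k z = 0 ∧ p i z = 0
  lip : ∃ K, 0 ≤ K ∧ K < Kmax B ∧ ∀ i t, |t| ≤ 2 * B.T → ∀ x y,
    ‖vec (u i) (t, x) - vec (u i) (t, y)‖ ≤ K * ‖x - y‖
  close : ∃ c, 0 ≤ c ∧ c < cmax B ∧ ∀ i z, |z.1| ≤ 2 * B.T →
    ‖vec (u i) z - (sg i * aa z.1) • wv B z.2‖ ≤ c * th z.1 * ‖wv B z.2‖
  path : ∀ i t x, |t| ≤ 3 / 2 * B.T → BackPath (vec (u i)) t x (vec (Y i) (t, x))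
  trans : ∀ i j z, |z.1| < 3 / 2 * B.T →
    dt (Y i j) z + ∑ k, u i k z * dx k (Y i j) z = 0

variable {B}

/-- acceleration minus force -/
def acc (u : Fin 3 → X → ℝ) (f : Fin 3 → X → ℝ) (k : Fin 3) (z : X) : ℝ :=
  dt (u k) z + ∑ j, u j z * dx j (u k) z - f k z

/-- density of fluid `i` of a stage -/
def Stage.dens (st : Stage B) (i : Fin 2) (z : X) : ℝ := st.rho (vec (st.Y i) z)

/-- momentum error of a stage -/
def Stage.E (st : Stage B) (i : Fin 2) (k : Fin 3) (z : X) : ℝ :=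
  st.dens i z * acc (st.u i) st.f k z - lap (st.u i k) z + dx k (st.p i) z

variable (B)

/-- the four phases (functions of the label) -/
def phi (a : Fin 4) (y : V3) : ℝ :=
  if h : a.val < 3 then y ⟨a.val, h⟩
  else (∑ j, (y j - B.x0 j) ^ 2) / 2 + 4 * (y 0 - B.x0 0)

/-- frequency ratios -/
def mu (a : Fin 4) : ℝ := 100 ^ (a : ℕ)

variable {B}

/-- the transported phases -/
def Stage.h (st : Stage B) (i : Fin 2) (a : Fin 4) (z : X) : ℝ := phi B a (vec (st.Y i) z)

/-- `N_a = |∇ (h_0^a - h_1^a)|^4` -/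
def Stage.NN (st : Stage B) (a : Fin 4) (z : X) : ℝ :=
  (∑ k, (dx k (st.h 0 a) z - dx k (st.h 1 a) z) ^ 2) ^ 2

end H37.MHD
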