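import Pool.Agent.H37.MHD.NextError
import Pool.Agent.H92.MHD_Background
import Pool.Agent.H86.MHD_M9b
import Pool.Agent.H36.MHD.Main

/-!
# MP_59296a_an, module M10b: passage to the limit
-/

open MeasureTheory Set Filter Topology
open scoped ContDiff
open H36.MHD

noncomputable section

namespace H37.MHD

variable {B : Bg}

/-- time clamped to `[0,T]` -/
def clampT (T : ℝ) (z : X) : X := (max 0 (min T z.1), z.2)

lemma continuous_clampT (T : ℝ) : Continuous (clampT T) := by
  unfold clampT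
  fun_prop

lemma clampT_abs {T : ℝ} (hT : 0 < T) (z : X) : |(clampT T z).1| ≤ T := by
  simp only [clampT]
  rw [abs_of_nonneg (le_max_left _ _)]
  exact max_le hT.le (min_le_left _ _)

lemma clampT_eq {T : ℝ} {z : X} (hz : z.1 ∈ Icc 0 T) : clampT T z = z := by
  unfold clampT
  rw [min_eq_right hz.2, max_eq_right hz.1]

/-- limits of sequences with geometrically decaying increments -/
lemma exists_lim {T : ℝ} (hT : 0 < T) (F : ℕ → X → ℝ) (hF : ∀ n, Continuous (F n))
    (hd : ∀ n z, |z.1| ≤ T → |F (n + 1) z - F n z| ≤ (1 / 2) ^ n) :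
    ∃ G : X → ℝ, Continuous G ∧
      (∀ z, z.1 ∈ Icc 0 T → Tendsto (fun n => F n z) atTop (𝓝 (G z))) ∧
      (∀ n z, z.1 ∈ Icc 0 T → |F n z - G z| ≤ 2) := by
  have h1 : ∀ z, CauchySeq (fun n => F n (clampT T z)) := by
    intro z
    refine cauchySeq_of_le_geometric (1 / 2) 1 (by norm_num) fun n => ?_
    rw [dist_comm, Real.dist_eq, one_mul]
    exact hd n _ (clampT_abs hT z)
  choose G hG using fun z => cauchySeq_tendsto_of_complete (h1 z)
  have h2 : ∀ n z, dist (F n (clampT T z)) (G z) ≤ 1 * (1 / 2) ^ n / (1 - 1 / 2) := by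
    intro n z
    refine dist_le_of_le_geometric_of_tendsto (1 / 2) 1 (by norm_num) (fun n => ?_) (hG z) n
    rw [dist_comm, Real.dist_eq, one_mul]
    exact hd n _ (clampT_abs hT z)
  refine ⟨G, ?_, ?_, ?_⟩
  · have hu : TendstoUniformly (fun n z => F n (clampT T z)) G atTop := by
      rw [Metric.tendstoUniformly_iff]
      intro e he
      have h3 : Tendsto (fun n : ℕ => 1 * (1 / 2 : ℝ) ^ n / (1 - 1 / 2)) atTop (𝓝 0) := by
        have := (tendsto_pow_atTop_nhds_zero_of_lt_one (r := (1 / 2 : ℝ)) (by norm_num)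
          (by norm_num)).const_mul 1 |>.div_const (1 - 1 / 2 : ℝ)
        simpa using this
      filter_upwards [h3.eventually (gt_mem_nhds he)] with n hn z
      rw [dist_comm]
      exact (h2 n z).trans_lt hn
    exact hu.continuous (Frequently.of_forall fun n => (hF n).comp (continuous_clampT T))
  · intro z hz
    have := hG z
    rwa [clampT_eq hz] at this
  · intro n z hz
    have h3 := h2 n z
    rw [clampT_eq hz, Real.dist_eq] at h3
    refine h3.trans ?_
    have : (1 / 2 : ℝ) ^ n ≤ 1 := pow_le_one₀ (by norm_num) (by norm_num)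
    norm_num
    linarith

lemma exists_lim3 (F : ℕ → V3 → ℝ) (hF : ∀ n, Continuous (F n))
    (hd : ∀ n z, |F (n + 1) z - F n z| ≤ (1 / 2) ^ n) :
    ∃ G : V3 → ℝ, Continuous G ∧ ∀ z, Tendsto (fun n => F n z) atTop (𝓝 (G z)) := by
  obtain ⟨G, hG1, hG2, -⟩ := exists_lim (T := 1) one_pos (fun n z => F n z.2)
    (fun n => (hF n).comp continuous_snd) (fun n z _ => hd n z.2)
  exact ⟨fun x => G (0, x), hG1.comp (continuous_const.prodMk continuous_id), fun z =>
    hG2 (0, z) ⟨le_rfl, zero_le_one⟩⟩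

/-- uniform bounds on the cylinder -/
lemma exists_bdd {Ω : Set V3} (hb : Bornology.IsBounded Ω) {T : ℝ} {F : ℕ → X → ℝ} {G : X → ℝ}
    (hG : Continuous G) (h : ∀ n z, z.1 ∈ Icc 0 T → |F n z - G z| ≤ 2) :
    ∃ C, ∀ n, ∀ z ∈ Icc 0 T ×ˢ Ω, |F n z| ≤ C := by
  have hc : IsCompact (Icc 0 T ×ˢ closure Ω) := isCompact_Icc.prod hb.isCompact_closure
  obtain ⟨C, hC⟩ := hc.exists_bound_of_continuousOn hG.continuousOn
  refine ⟨2 + C, fun n z hz => ?_⟩
  have h1 := hC z ⟨hz.1, subset_closure hz.2⟩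
  have h2 := h n z hz.1
  rw [Real.norm_eq_abs] at h1
  calc |F n z| = |(F n z - G z) + G z| := by congr 1; ring
    _ ≤ |F n z - G z| + |G z| := abs_add_le _ _
    _ ≤ 2 + C := add_le_add h2 h1

/-- Everything the limit passage needs about the sequence of stages. -/
def GoodSeq (B : Bg) (st : ℕ → Stage B) : Prop :=
    (∀ n y, |(st n).rho y - 1| ≤ 1 / 4) ∧
    (∀ n y, |(st (n + 1)).rho y - (st n).rho y| ≤ (1 / 2) ^ n) ∧
    (∀ n i z, |z.1| ≤ B.T → |(st (n + 1)).dens i z - (st n).dens i z| ≤ (1 / 2) ^ n) ∧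
    (∀ n i k z, |(st (n + 1)).u i k z - (st n).u i k z| ≤ (1 / 2) ^ n) ∧
    (∀ n i k j z, |dx j ((st (n + 1)).u i k) z - dx j ((st n).u i k) z| ≤ (1 / 2) ^ n) ∧
    (∀ n k z, |z.1| ≤ B.T → |(st (n + 2)).f k z - (st (n + 1)).f k z| ≤ (1 / 2) ^ n) ∧
    (∀ n i k z, |z.1| ≤ B.T → |(st (n + 1)).E i k z| ≤ (1 / 2) ^ n)

/-- **Limit of the construction.** -/
theorem two_solutions (B : Bg) (st : ℕ → Stage B) (hst : GoodSeq B st) (Ω : Set V3)
    (hΩ : IsOpen Ω) (hb : Bornology.IsBounded Ω) (hsub : Metric.closedBall B.x0 B.r ⊆ Ω) :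
    ∃ (ρ₀ : V3 → ℝ) (f : X → V3) (ρ : Fin 2 → X → ℝ) (u : Fin 2 → X → V3),
      ∃ (hρ₀ : Continuous ρ₀) (hf : Continuous f) (hpos : ∀ x, 3 / 4 ≤ ρ₀ x ∧ ρ₀ x ≤ 5 / 4),
      (∀ i, Continuous (ρ i) ∧ Continuous (u i) ∧
        IsWeakSolution Ω B.T (mkData Ω hΩ hb B.T ρ₀ hρ₀
          ⟨3 / 4, by norm_num, fun x _ => (hpos x).1⟩ f hf)
          (fun t x => ρ i (t, x)) (fun t x => u i (t, x)) (fun _ _ => 0)) ∧
      (∀ t ∈ Ioc 0 B.T, ∀ x, t ^ 3 * ‖wv B x‖ ≤ ‖u 0 (t, x) - u 1 (t, x)‖) := by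
  obtain ⟨h1, h2, h3, h4, h5, h6, h7⟩ := hst
  have hT := B.hT
  have hpow : ∀ n : ℕ, ((1 : ℝ) / 2) ^ (n + 1) ≤ (1 / 2) ^ n := fun n =>
    pow_le_pow_of_le_one (by norm_num) (by norm_num) (Nat.le_succ n)
  -- limits
  obtain ⟨ρ₀, hρ₀c, hρ₀⟩ := exists_lim3 (fun n => (st (n + 1)).rho)
    (fun n => (st (n + 1)).rho_smooth.continuous) (fun n y => (h2 (n + 1) y).trans (hpow n))
  choose ρ hρc hρ hρb using fun i : Fin 2 => exists_lim hT (fun n => (st (n + 1)).dens i)
    (fun n => (smooth_dens (st (n + 1)) i).continuous)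
    (fun n z hz => (h3 (n + 1) i z hz).trans (hpow n))
  choose u huc hu hub using fun q : Fin 2 × Fin 3 => exists_lim hT
    (fun n => (st (n + 1)).u q.1 q.2) (fun n => ((st (n + 1)).u_smooth q.1 q.2).continuous)
    (fun n z _ => (h4 (n + 1) q.1 q.2 z).trans (hpow n))
  choose G hGc hG hGb using fun q : Fin 2 × Fin 3 × Fin 3 => exists_lim hT
    (fun n => dx q.2.2 ((st (n + 1)).u q.1 q.2.1))
    (fun n => (smooth_dx ((st (n + 1)).u_smooth q.1 q.2.1) q.2.2).continuous)
    (fun n z _ => (h5 (n + 1) q.1 q.2.1 q.2.2 z).trans (hpow n))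
  choose f hfc hf hfb using fun k : Fin 3 => exists_lim hT
    (fun n => (st (n + 1)).f k) (fun n => ((st (n + 1)).f_smooth k).continuous)
    (fun n z hz => h6 n k z hz)
  have hpos : ∀ x, 3 / 4 ≤ ρ₀ x ∧ ρ₀ x ≤ 5 / 4 := by
    intro x
    constructor
    · refine ge_of_tendsto' (hρ₀ x) fun n => ?_
      have := (abs_le.1 (h1 (n + 1) x)).1
      linarith
    · refine le_of_tendsto' (hρ₀ x) fun n => ?_
      have := (abs_le.1 (h1 (n + 1) x)).2
      linarith
  have hfC : Continuous (fun z k => f k z : X → V3) := continuous_pi fun k => hfc k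
  have huC : ∀ i, Continuous (fun z k => u (i, k) z : X → V3) := fun i =>
    continuous_pi fun k => huc (i, k)
  refine ⟨ρ₀, fun z k => f k z, ρ, fun i z k => u (i, k) z, hρ₀c, hfC, hpos,
    fun i => ⟨hρc i, huC i, ?_⟩, ?_⟩
  · -- uniform bounds
    choose Cu hCu using fun q : Fin 2 × Fin 3 => exists_bdd hb (huc q) (hub q)
    choose CG hCG using fun q : Fin 2 × Fin 3 × Fin 3 => exists_bdd hb (hGc q) (hGb q)
    choose Cf hCf using fun k : Fin 3 => exists_bdd hb (hfc k) (hfb k)
    set C : ℝ := 2 + (∑ q, |Cu q|) + (∑ q, |CG q|) + ∑ k, |Cf k| with hC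
    have hCu' : ∀ q, Cu q ≤ C := by
      intro q
      have := Finset.single_le_sum (f := fun q => |Cu q|) (fun q _ => abs_nonneg _)
        (Finset.mem_univ q)
      have h8 : 0 ≤ ∑ q, |CG q| := Finset.sum_nonneg fun _ _ => abs_nonneg _
      have h9 : 0 ≤ ∑ q, |Cf q| := Finset.sum_nonneg fun _ _ => abs_nonneg _
      have := le_abs_self (Cu q)
      linarith
    have hCG' : ∀ q, CG q ≤ C := by
      intro q
      have := Finset.single_le_sum (f := fun q => |CG q|) (fun q _ => abs_nonneg _)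
        (Finset.mem_univ q)
      have h8 : 0 ≤ ∑ q, |Cu q| := Finset.sum_nonneg fun _ _ => abs_nonneg _
      have h9 : 0 ≤ ∑ q, |Cf q| := Finset.sum_nonneg fun _ _ => abs_nonneg _
      have := le_abs_self (CG q)
      linarith
    have hCf' : ∀ q, Cf q ≤ C := by
      intro q
      have := Finset.single_le_sum (f := fun q => |Cf q|) (fun q _ => abs_nonneg _)
        (Finset.mem_univ q)
      have h8 : 0 ≤ ∑ q, |Cu q| := Finset.sum_nonneg fun _ _ => abs_nonneg _
      have h9 : 0 ≤ ∑ q, |CG q| := Finset.sum_nonneg fun _ _ => abs_nonneg _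
      have := le_abs_self (Cf q)
      linarith
    have hC2 : 2 ≤ C := by
      have h8 : 0 ≤ ∑ q, |Cu q| := Finset.sum_nonneg fun _ _ => abs_nonneg _
      have h9 : 0 ≤ ∑ q, |CG q| := Finset.sum_nonneg fun _ _ => abs_nonneg _
      have h10 : 0 ≤ ∑ q, |Cf q| := Finset.sum_nonneg fun _ _ => abs_nonneg _
      linarith
    have hseq : StageSeq Ω B.T (Metric.closedBall B.x0 B.r)
        (fun n => (st (n + 1)).dens i) (fun n => (st (n + 1)).p i)
        (fun n => vec ((st (n + 1)).u i)) (fun n => vec (st (n + 1)).f)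
        (fun n z k => (st (n + 1)).E i k z) (ρ i) (fun z k => u (i, k) z) (fun z k => f k z)
        (fun z k j => G (i, k, j) z) C := by
      refine ⟨fun n => ?_, fun n => continuous_pi fun k => (smooth_E _ i k).continuous, ?_, ?_, ?_,
        ?_, ?_, ?_, ?_, ?_, ?_, ?_, ?_, ?_, ?_, hρc i, huC i, hfC, ?_⟩
      · refine ⟨smooth_dens _ i, (st (n + 1)).p_smooth i, fun k => (st (n + 1)).u_smooth i k,
          continuous_pi fun k => ((st (n + 1)).f_smooth k).continuous, ?_, ?_, ?_⟩
        · intro z hz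
          refine (st (n + 1)).dens_trans i z ?_
          rw [abs_of_pos hz.1.1]
          have := hz.1.2
          linarith
        · intro z _
          exact (st (n + 1)).u_div i z
        · intro z _ k
          rfl
      · intro n z hz
        funext k
        refine ((st (n + 1)).u_supp i k z ?_).1
        rw [mem_closedBall_iff_norm, not_le] at hz
        exact hz
      · intro n z _
        exact (st (n + 1)).u_div i z
      · intro n x
        funext k
        exact (st (n + 1)).u_zero i k x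
      · intro n z _
        have := h1 (n + 1) (vec ((st (n + 1)).Y i) z)
        have h8 := abs_le.1 this
        have h9 : |(st (n + 1)).dens i z| ≤ 2 := by
          unfold Stage.dens
          rw [abs_le]
          constructor <;> linarith [h8.1, h8.2]
        exact h9.trans hC2
      · intro n z hz k
        exact (hCu (i, k) n z hz).trans (hCu' _)
      · intro n z hz k j
        exact (hCG (i, k, j) n z hz).trans (hCG' _)
      · intro n z hz k
        exact (hCf k n z hz).trans (hCf' _)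
      · intro n z hz k
        have h8 : |z.1| ≤ B.T := by rw [abs_of_nonneg hz.1.1]; exact hz.1.2
        have h9 := h7 n i k z h8
        have h10 : (1 / 2 : ℝ) ^ n ≤ 1 := pow_le_one₀ (by norm_num) (by norm_num)
        linarith
      · intro z hz
        exact hρ i z hz.1
      · intro z hz k
        exact hu (i, k) z hz.1
      · intro z hz k j
        exact hG (i, k, j) z hz.1
      · intro z hz k
        exact hf k z hz.1
      · intro z hz k
        have h8 : |z.1| ≤ B.T := by rw [abs_of_nonneg hz.1.1]; exact hz.1.2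
        refine squeeze_zero_norm (fun n => ?_) (tendsto_pow_atTop_nhds_zero_of_lt_one
          (r := (1 / 2 : ℝ)) (by norm_num) (by norm_num))
        rw [Real.norm_eq_abs]
        exact h7 n i k z h8
      · exact continuous_pi fun k => continuous_pi fun j => hGc (i, k, j)
    have := weak_of_limit hΩ hb hT (isCompact_closedBall B.x0 B.r) hsub hseq hρ₀c
      ⟨3 / 4, by norm_num, fun x _ => (hpos x).1⟩ (fun x _ => by
        refine tendsto_nhds_unique (hρ i (0, x) ⟨le_rfl, hT.le⟩) ?_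
        have h8 := hρ₀ x
        refine h8.congr fun n => ?_
        exact ((st (n + 1)).dens_zero i x).symm)
    exact this
  · intro t ht x
    have htI : (t, x).1 ∈ Icc 0 B.T := ⟨ht.1.le, ht.2⟩
    have h8 : Tendsto (fun n => vec ((st (n + 1)).u 0) (t, x) - vec ((st (n + 1)).u 1) (t, x))
        atTop (𝓝 ((fun k => u (0, k) (t, x)) - fun k => u (1, k) (t, x))) := by
      refine Tendsto.sub ?_ ?_
      · exact tendsto_pi_nhds.2 fun k => hu (0, k) (t, x) htI
      · exact tendsto_pi_nhds.2 fun k => hu (1, k) (t, x) htI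
    refine ge_of_tendsto' h8.norm fun n => ?_
    exact (st (n + 1)).u_ne t ht.1 ht.2 x

end H37.MHD
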