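import Pool.Agent.H37.MHD.Final

/-!
# MP_59296a_an: non-uniqueness from a good sequence of stages
-/

open MeasureTheory Set Filter Topology
open scoped ContDiff
open H36.MHD

noncomputable section

namespace H37.MHD

/-- two continuous fields which differ at a point of the open cylinder are not a.e. equal -/
lemma not_ae_eq {Ω : Set V3} (hΩ : IsOpen Ω) {T : ℝ} {u v : X → V3} (hu : Continuous u)
    (hv : Continuous v) {z : X} (hz : z ∈ cyl Ω T) (hne : u z ≠ v z) :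
    ¬ (u =ᵐ[volume.restrict (cyl Ω T)] v) := by
  intro h
  have ho : IsOpen (cyl Ω T) := isOpen_Ioo.prod hΩ
  have ho2 : IsOpen {z : X | u z ≠ v z} := isOpen_ne_fun hu hv
  have hopen : IsOpen ({z : X | u z ≠ v z} ∩ cyl Ω T) := ho2.inter ho
  have hpos : 0 < volume ({z : X | u z ≠ v z} ∩ cyl Ω T) :=
    hopen.measure_pos volume ⟨z, hne, hz⟩
  have h0 : volume.restrict (cyl Ω T) {z : X | u z ≠ v z} = 0 := h
  rw [Measure.restrict_apply ho2.measurableSet] at h0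
  exact hpos.ne' h0

theorem nonuniqueness_of (hseq : ∀ B : Bg, ∃ st : ℕ → Stage B, GoodSeq B st)
    (Ω : Set V3) (hΩ : IsOpen Ω) (hne : Ω.Nonempty) (hb : Bornology.IsBounded Ω) (T : ℝ)
    (hT : 0 < T) :
    ∃ (D : Data Ω T) (ρ₁ ρ₂ : ℝ → V3 → ℝ) (u₁ u₂ : ℝ → V3 → V3),
      (Continuous D.ρ₀ ∧ (∀ x, 3 / 4 ≤ D.ρ₀ x ∧ D.ρ₀ x ≤ 5 / 4) ∧
        Continuous (fun z : ℝ × V3 => D.f z.1 z.2) ∧ (∀ x, D.u₀ x = 0) ∧ (∀ x, D.B₀ x = 0) ∧
        (∀ s, D.η s = 1) ∧ (∀ s, D.σ s = 1)) ∧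
      IsWeakSolution Ω T D ρ₁ u₁ (fun _ _ => 0) ∧
      IsWeakSolution Ω T D ρ₂ u₂ (fun _ _ => 0) ∧
      ¬ ((fun z : ℝ × V3 => u₁ z.1 z.2) =ᵐ[volume.restrict (cyl Ω T)]
          fun z : ℝ × V3 => u₂ z.1 z.2) := by
  obtain ⟨B, rfl, hsub⟩ := exists_bg Ω hΩ hne T hT
  obtain ⟨st, hst⟩ := hseq B
  obtain ⟨ρ₀, f, ρ, u, hρ₀, hf, hpos, hsol, hne'⟩ := two_solutions B st hst Ω hΩ hb hsub
  refine ⟨mkData Ω hΩ hb B.T ρ₀ hρ₀ ⟨3 / 4, by norm_num, fun x _ => (hpos x).1⟩ f hf,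
    fun t x => ρ 0 (t, x), fun t x => ρ 1 (t, x), fun t x => u 0 (t, x), fun t x => u 1 (t, x),
    ⟨hρ₀, hpos, hf, fun _ => rfl, fun _ => rfl, fun _ => rfl, fun _ => rfl⟩,
    (hsol 0).2.2, (hsol 1).2.2, ?_⟩
  obtain ⟨x, k, hx⟩ := B.w_ne
  have hxΩ : x ∈ Ω := hsub (by
    rw [mem_closedBall_iff_norm]
    exact B.w_supp k x hx)
  have hT2 : 0 < B.T / 2 := by linarith
  refine not_ae_eq hΩ (hsol 0).2.1 (hsol 1).2.1 (z := (B.T / 2, x)) ⟨⟨hT2, by linarith⟩, hxΩ⟩ ?_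
  intro heq
  have h1 := hne' (B.T / 2) ⟨hT2, by linarith⟩ x
  have heq' : u 0 (B.T / 2, x) = u 1 (B.T / 2, x) := heq
  rw [heq', sub_self, norm_zero] at h1
  have h2 : 0 < ‖wv B x‖ := by
    rw [norm_pos_iff]
    intro h0
    exact hx (congrFun h0 k)
  have : 0 < (B.T / 2) ^ 3 * ‖wv B x‖ := by positivity
  linarith

end H37.MHD
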