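import Pool.Agent.H37.MHD.Defs2
import Pool.Agent.H70.MHD.Close
import Pool.Agent.H92.MHD_Region
import Pool.Agent.H36.MHD.Calc

/-!
# MP_59296a_an, module M8b: the momentum error of the next stage
-/

open MeasureTheory Set Filter Topology
open scoped ContDiff
open H36.MHD

noncomputable section

namespace H37.MHD

variable {B : Bg}

/-! ### linearity of the derivatives -/

lemma dx_add' {g h : X → ℝ} (hg : ContDiff ℝ ∞ g) (hh : ContDiff ℝ ∞ h) (j : Fin 3) (z : X) :
    dx j (fun y => g y + h y) z = dx j g z + dx j h z := by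
  unfold dx
  rw [fderiv_fun_add (smooth_diff hg z) (smooth_diff hh z)]
  simp

lemma dt_add' {g h : X → ℝ} (hg : ContDiff ℝ ∞ g) (hh : ContDiff ℝ ∞ h) (z : X) :
    dt (fun y => g y + h y) z = dt g z + dt h z := by
  unfold dt
  rw [fderiv_fun_add (smooth_diff hg z) (smooth_diff hh z)]
  simp

lemma lap_add' {g h : X → ℝ} (hg : ContDiff ℝ ∞ g) (hh : ContDiff ℝ ∞ h) (z : X) :
    lap (fun y => g y + h y) z = lap g z + lap h z := by
  unfold lap
  rw [← Finset.sum_add_distrib]
  refine Finset.sum_congr rfl fun j _ => ?_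
  have : dx j (fun y => g y + h y) = fun y => dx j g y + dx j h y :=
    funext fun y => dx_add' hg hh j y
  rw [this, dx_add' (smooth_dx hg j) (smooth_dx hh j)]

lemma smooth_lap {g : X → ℝ} (hg : ContDiff ℝ ∞ g) : ContDiff ℝ ∞ (lap g) := by
  unfold lap
  exact ContDiff.sum fun j _ => smooth_dx (smooth_dx hg j) j

lemma norm_e (j : Fin 3) : ‖((0 : ℝ), (Pi.single j (1 : ℝ) : V3))‖ ≤ 1 := by
  rw [Prod.norm_def]
  simp [Pi.norm_single]

lemma norm_e0 : ‖((1 : ℝ), (0 : V3))‖ ≤ 1 := by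
  rw [Prod.norm_def]
  simp

lemma dx_le (g : X → ℝ) (j : Fin 3) (z : X) {C : ℝ} (h : ‖fderiv ℝ g z‖ ≤ C) : |dx j g z| ≤ C := by
  unfold dx
  rw [← Real.norm_eq_abs]
  have := (fderiv ℝ g z).le_opNorm ((0 : ℝ), (Pi.single j (1 : ℝ) : V3))
  have h0 := norm_e j
  nlinarith [norm_nonneg (fderiv ℝ g z), norm_nonneg ((0 : ℝ), (Pi.single j (1 : ℝ) : V3))]

lemma dt_le (g : X → ℝ) (z : X) {C : ℝ} (h : ‖fderiv ℝ g z‖ ≤ C) : |dt g z| ≤ C := by
  unfold dt
  rw [← Real.norm_eq_abs]
  have := (fderiv ℝ g z).le_opNorm ((1 : ℝ), (0 : V3))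
  have h0 := norm_e0
  nlinarith [norm_nonneg (fderiv ℝ g z), norm_nonneg ((1 : ℝ), (0 : V3))]

/-! ### smoothness -/

lemma smooth_vecY (st : Stage B) (i : Fin 2) : ContDiff ℝ ∞ (vec (st.Y i)) := by
  unfold vec
  exact contDiff_pi.2 fun k => st.Y_smooth i k

lemma smooth_dens (st : Stage B) (i : Fin 2) : ContDiff ℝ ∞ (st.dens i) :=
  st.rho_smooth.comp (smooth_vecY st i)

lemma smooth_acc (st : Stage B) (i : Fin 2) (k : Fin 3) :
    ContDiff ℝ ∞ (acc (st.u i) st.f k) := by
  unfold acc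
  exact ((smooth_dt (st.u_smooth i k)).add (ContDiff.sum fun j _ =>
    (st.u_smooth i j).mul (smooth_dx (st.u_smooth i k) j))).sub (st.f_smooth k)

lemma smooth_E (st : Stage B) (i : Fin 2) (k : Fin 3) : ContDiff ℝ ∞ (st.E i k) := by
  unfold Stage.E
  exact (((smooth_dens st i).mul (smooth_acc st i k)).sub (smooth_lap (st.u_smooth i k))).add
    (smooth_dx (st.p_smooth i) k)

/-! ### the algebraic identity -/

/-- first order change of the acceleration -/
def dacc (u v : Fin 3 → X → ℝ) (k : Fin 3) (z : X) : ℝ :=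
  dt (v k) z + ∑ j, (v j z * dx j (u k) z + u j z * dx j (v k) z + v j z * dx j (v k) z)

lemma next_identity {st : Stage B} {ε : ℝ} (sd : StepData st ε) {lam : ℝ} {st' : Stage B}
    (hn : Next sd lam st') (i : Fin 2) (k : Fin 3) (z : X) :
    st'.E i k z = (1 - sd.chi z) * (st.E i k z + ε * st.CC lam i z * acc (st.u i) st.f k z)
      + ((-lap (sd.v lam i k) z + dx k (sd.q lam i) z - st.RR ε sd.chi sd.g lam i k z)
        + (st.dens i z + ε * st.CC lam i z) * dacc (st.u i) (sd.v lam i) k z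
        + (st'.dens i z - (st.dens i z + ε * st.CC lam i z))
          * (acc (st.u i) st.f k z + dacc (st.u i) (sd.v lam i) k z - st.FF ε sd.g lam k z)) := by
  have hu : ∀ k, st'.u i k = fun z => st.u i k z + sd.v lam i k z := fun k =>
    funext fun z => hn.u_eq i k z
  have hp : st'.p i = fun z => st.p i z + sd.q lam i z := funext fun z => hn.p_eq i z
  have hacc : acc (st'.u i) st'.f k z = acc (st.u i) st.f k z
      + dacc (st.u i) (sd.v lam i) k z - st.FF ε sd.g lam k z := by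
    unfold acc dacc
    rw [hn.f_eq, hu k, dt_add' (st.u_smooth i k) (sd.v_smooth lam i k)]
    simp only [hu, dx_add' (st.u_smooth i k) (sd.v_smooth lam i k), Fin.sum_univ_three]
    ring
  have hlap : lap (st'.u i k) z = lap (st.u i k) z + lap (sd.v lam i k) z := by
    rw [hu k, lap_add' (st.u_smooth i k) (sd.v_smooth lam i k)]
  have hdp : dx k (st'.p i) z = dx k (st.p i) z + dx k (sd.q lam i) z := by
    rw [hp, dx_add' (st.p_smooth i) (sd.q_smooth lam i)]
  have h1 : st'.E i k z = st'.dens i z * acc (st'.u i) st'.f k z - lap (st'.u i k) z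
      + dx k (st'.p i) z := rfl
  have h2 : st.E i k z = st.dens i z * acc (st.u i) st.f k z - lap (st.u i k) z
      + dx k (st.p i) z := rfl
  have h3 : st.RR ε sd.chi sd.g lam i k z = (st.dens i z + ε * st.CC lam i z)
    * st.FF ε sd.g lam k z
    - sd.chi z * (st.E i k z + ε * st.CC lam i z * acc (st.u i) st.f k z) := rfl
  rw [h1, hacc, hlap, hdp, h3, h2]
  ring

/-! ### elementary bounds -/

lemma CC_le (st : Stage B) (lam : ℝ) (i : Fin 2) (z : X) : |st.CC lam i z| ≤ 4 := by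
  unfold Stage.CC
  refine (Finset.abs_sum_le_sum_abs _ _).trans ?_
  refine (Finset.sum_le_sum fun b _ => Real.abs_cos_le_one _).trans ?_
  simp

/-- A continuous function is bounded on the relevant compact set. -/
def KK (B : Bg) : Set X := Icc (-B.T) B.T ×ˢ Metric.closedBall B.x0 1

lemma isCompact_KK (B : Bg) : IsCompact (KK B) := isCompact_Icc.prod (isCompact_closedBall _ _)

lemma bound_KK (B : Bg) {F : X → ℝ} (hF : Continuous F) : ∃ C, 0 ≤ C ∧ ∀ z ∈ KK B, |F z| ≤ C := by
  obtain ⟨C, hC⟩ := (isCompact_KK B).exists_bound_of_continuousOn hF.continuousOn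
  exact ⟨max C 0, le_max_right _ _, fun z hz => (hC z hz).trans (le_max_left _ _)⟩

lemma bound_KK_fin {ι : Type*} [Fintype ι] (B : Bg) {F : ι → X → ℝ} (hF : ∀ i, Continuous (F i)) :
    ∃ C, 0 ≤ C ∧ ∀ i, ∀ z ∈ KK B, |F i z| ≤ C := by
  choose C hC0 hC using fun i => bound_KK B (hF i)
  refine ⟨∑ i, C i, Finset.sum_nonneg fun i _ => hC0 i, fun i z hz => (hC i z hz).trans ?_⟩
  exact Finset.single_le_sum (f := C) (fun i _ => hC0 i) (Finset.mem_univ i)

lemma dacc_le (st : Stage B) {A C lam : ℝ} (hA : 0 ≤ A) (hC : 0 ≤ C) (hlam : 1 ≤ lam)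
    {v : Fin 3 → X → ℝ} (i : Fin 2) (k : Fin 3) (z : X) (hz : ∀ j, |st.u i j z| ≤ A)
    (hz' : ∀ j, |dx j (st.u i k) z| ≤ A)
    (hv : ∀ j, |v j z| ≤ C / lam ^ 2) (hdv : ∀ j, ‖fderiv ℝ (v j) z‖ ≤ C / lam) :
    |dacc (st.u i) v k z| ≤ (C + 3 * (C * A + A * C + C * C)) / lam := by
  have hl0 : 0 < lam := by linarith
  have h1 : C / lam ^ 2 ≤ C / lam := by
    apply div_le_div_of_nonneg_left hC hl0
    nlinarith
  have h2 : C / lam ≤ C := div_le_self hC hlam
  have h3 : 0 ≤ C / lam := div_nonneg hC hl0.le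
  have hv' : ∀ j, |v j z| ≤ C / lam := fun j => (hv j).trans h1
  have e1 : |dt (v k) z| ≤ C / lam := dt_le _ _ (hdv k)
  have e2 : ∀ j, |v j z * dx j (st.u i k) z + st.u i j z * dx j (v k) z + v j z * dx j (v k) z|
      ≤ (C * A + A * C + C * C) / lam := by
    intro j
    have f1 : |v j z * dx j (st.u i k) z| ≤ C / lam * A := by
      rw [abs_mul]; exact mul_le_mul (hv' j) (hz' j) (abs_nonneg _) h3
    have f2 : |st.u i j z * dx j (v k) z| ≤ A * (C / lam) := by
      rw [abs_mul]; exact mul_le_mul (hz j) (dx_le _ _ _ (hdv k)) (abs_nonneg _) hA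
    have f3 : |v j z * dx j (v k) z| ≤ C / lam * C := by
      rw [abs_mul]; exact mul_le_mul (hv' j) ((dx_le _ _ _ (hdv k)).trans h2) (abs_nonneg _) h3
    calc _ ≤ |v j z * dx j (st.u i k) z| + |st.u i j z * dx j (v k) z| + |v j z * dx j (v k) z| :=
          abs_add_three _ _ _
      _ ≤ C / lam * A + A * (C / lam) + C / lam * C := by linarith
      _ = _ := by field_simp
  unfold dacc
  calc |dt (v k) z + ∑ j, (v j z * dx j (st.u i k) z + st.u i j z * dx j (v k) z
          + v j z * dx j (v k) z)|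
      ≤ |dt (v k) z| + |∑ j, (v j z * dx j (st.u i k) z + st.u i j z * dx j (v k) z
          + v j z * dx j (v k) z)| := abs_add_le _ _
    _ ≤ C / lam + ∑ j : Fin 3, (C * A + A * C + C * C) / lam := by
        refine add_le_add e1 ((Finset.abs_sum_le_sum_abs _ _).trans
          (Finset.sum_le_sum fun j _ => e2 j))
    _ = _ := by
        simp only [Finset.sum_const, Finset.card_univ, Fintype.card_fin, nsmul_eq_mul]
        push_cast
        ring

lemma NN_cont37 (st : Stage B) (a : Fin 4) : Continuous (st.NN a) := by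
  have hh : ∀ i, ContDiff ℝ ∞ (st.h i a) := fun i => (phi_smooth70 a).comp (smooth_vecY st i)
  unfold Stage.NN
  exact (continuous_finsetSum _ fun k _ =>
    (((smooth_dx (hh 0) k).continuous.sub (smooth_dx (hh 1) k).continuous).pow 2)).pow 2

lemma FF_bound {st : Stage B} {ε : ℝ} (sd : StepData st ε) :
    ∃ A, 0 ≤ A ∧ ∀ lam k, ∀ z ∈ KK B, |st.FF ε sd.g lam k z| ≤ A := by
  obtain ⟨C, hC0, hC⟩ := bound_KK_fin (ι := Fin 4 × Fin 2 × Fin 3) B
    (F := fun q z => sd.g z * st.NN q.1 z * st.E q.2.1 q.2.2 z) (fun q =>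
      ((sd.g_smooth.continuous.mul (NN_cont37 st q.1)).mul
        (smooth_E st q.2.1 q.2.2).continuous))
  refine ⟨|2 / ε| * (8 * C), by positivity, fun lam k z hz => ?_⟩
  unfold Stage.FF
  rw [abs_mul]
  refine mul_le_mul_of_nonneg_left ?_ (abs_nonneg _)
  refine (Finset.abs_sum_le_sum_abs _ _).trans ?_
  calc _ ≤ ∑ a : Fin 4, ∑ j : Fin 2, C := by
        refine Finset.sum_le_sum fun a _ => (Finset.abs_sum_le_sum_abs _ _).trans
          (Finset.sum_le_sum fun j _ => ?_)
        rw [abs_mul]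
        have h1 := hC (a, j, k) z hz
        have h2 := Real.abs_cos_le_one (lam * (mu a * st.h j a z))
        calc _ ≤ |sd.g z * st.NN a z * st.E j k z| * 1 :=
              mul_le_mul_of_nonneg_left h2 (abs_nonneg _)
          _ ≤ C := by rw [mul_one]; exact h1
    _ = 8 * C := by
        simp only [Finset.sum_const, Finset.card_univ, Fintype.card_fin, nsmul_eq_mul]
        push_cast
        ring

/-- The error of the next stage is `(1-χ)(E + ε C acc) + O(1/λ)`. -/
theorem next_main {st : Stage B} {ε : ℝ} (hε : 0 < ε) (hε8 : ε ≤ 1 / 8)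
    (hρ : ∀ y, |st.rho y| ≤ 3 / 2) (sd : StepData st ε) :
    ∃ D, 0 ≤ D ∧ ∀ lam, 1 ≤ lam → ∀ st' : Stage B, Next sd lam st' → ∀ i k, ∀ z ∈ KK B,
      |st'.E i k z - (1 - sd.chi z) * (st.E i k z + ε * st.CC lam i z * acc (st.u i) st.f k z)|
        ≤ D / lam := by
  obtain ⟨C1, hC10, hC1⟩ := Next.dens_err sd
  obtain ⟨AF, hAF0, hAF⟩ := FF_bound sd
  obtain ⟨Aa, hAa0, hAa⟩ := bound_KK_fin (ι := Fin 2 × Fin 3) B
    (F := fun q z => acc (st.u q.1) st.f q.2 z) (fun q => (smooth_acc st q.1 q.2).continuous)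
  obtain ⟨Au, hAu0, hAu⟩ := bound_KK_fin (ι := Fin 2 × Fin 3) B
    (F := fun q z => st.u q.1 q.2 z) (fun q => (st.u_smooth q.1 q.2).continuous)
  obtain ⟨Ad, hAd0, hAd⟩ := bound_KK_fin (ι := Fin 2 × Fin 3 × Fin 3) B
    (F := fun q z => dx q.2.2 (st.u q.1 q.2.1) z)
    (fun q => (smooth_dx (st.u_smooth q.1 q.2.1) q.2.2).continuous)
  have hC0 := sd.C_nonneg
  set C := sd.C with hCdef
  set A := Au + Ad with hA
  have hA0 : 0 ≤ A := add_nonneg hAu0 hAd0
  set D2 := C + 3 * (C * A + A * C + C * C) with hD2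
  have hD20 : 0 ≤ D2 := by positivity
  refine ⟨C + 2 * D2 + C1 * (Aa + D2 + AF), by positivity, fun lam hlam st' hn i k z hz => ?_⟩
  have hl0 : 0 < lam := by linarith
  have hzT : |z.1| ≤ B.T := abs_le.2 ⟨hz.1.1, hz.1.2⟩
  have hzx : ‖z.2 - B.x0‖ ≤ 1 := by
    have := hz.2
    rwa [mem_closedBall_iff_norm] at this
  have e1 := sd.corr_le lam hlam i k z
  have e2 : |dacc (st.u i) (sd.v lam i) k z| ≤ D2 / lam := by
    refine dacc_le st hA0 hC0 hlam i k z (fun j => ?_) (fun j => ?_)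
      (fun j => sd.v_le lam hlam i j z) (fun j => sd.dv_le lam hlam i j z)
    · exact (hAu (i, j) z hz).trans (by rw [hA]; linarith)
    · exact (hAd (i, k, j) z hz).trans (by rw [hA]; linarith)
  have e3 := hC1 lam hlam st' hn i z hzT hzx
  have e4 : |st.dens i z + ε * st.CC lam i z| ≤ 2 := by
    have h1 : |st.dens i z| ≤ 3 / 2 := hρ _
    have h2 := CC_le st lam i z
    have h3 : |ε * st.CC lam i z| ≤ 1 / 2 := by
      rw [abs_mul, abs_of_pos hε]
      calc ε * |st.CC lam i z| ≤ 1 / 8 * 4 := mul_le_mul hε8 h2 (abs_nonneg _) (by norm_num)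
        _ = 1 / 2 := by norm_num
    calc _ ≤ |st.dens i z| + |ε * st.CC lam i z| := abs_add_le _ _
      _ ≤ 2 := by linarith
  have e5 : |acc (st.u i) st.f k z + dacc (st.u i) (sd.v lam i) k z - st.FF ε sd.g lam k z|
      ≤ Aa + D2 + AF := by
    have h1 := hAa (i, k) z hz
    have h2 : D2 / lam ≤ D2 := div_le_self hD20 hlam
    have h3 := hAF lam k z hz
    calc _ ≤ |acc (st.u i) st.f k z + dacc (st.u i) (sd.v lam i) k z|
          + |st.FF ε sd.g lam k z| := abs_sub _ _
      _ ≤ |acc (st.u i) st.f k z| + |dacc (st.u i) (sd.v lam i) k z|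
          + |st.FF ε sd.g lam k z| := by linarith [abs_add_le (acc (st.u i) st.f k z) (dacc (st.u i) (sd.v lam i) k z)]
      _ ≤ _ := by simp only at h1; linarith
  rw [next_identity sd hn i k z, add_sub_cancel_left]
  calc _ ≤ |-lap (sd.v lam i k) z + dx k (sd.q lam i) z - st.RR ε sd.chi sd.g lam i k z|
        + |(st.dens i z + ε * st.CC lam i z) * dacc (st.u i) (sd.v lam i) k z|
        + |(st'.dens i z - (st.dens i z + ε * st.CC lam i z))
          * (acc (st.u i) st.f k z + dacc (st.u i) (sd.v lam i) k z - st.FF ε sd.g lam k z)| :=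
        abs_add_three _ _ _
    _ ≤ C / lam + 2 * (D2 / lam) + C1 / lam * (Aa + D2 + AF) := by
        refine add_le_add (add_le_add e1 ?_) ?_
        · rw [abs_mul]
          exact mul_le_mul e4 e2 (abs_nonneg _) (by norm_num)
        · rw [abs_mul]
          exact mul_le_mul e3 e5 (abs_nonneg _) (div_nonneg hC10 hl0.le)
    _ = _ := by ring

lemma next_rho_le {st : Stage B} {ε : ℝ} (hε : 0 < ε) (hε8 : ε ≤ 1 / 8)
    (hρ : ∀ y, |st.rho y| ≤ 3 / 2) {sd : StepData st ε} {lam : ℝ} {st' : Stage B}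
    (hn : Next sd lam st') (y : V3) : |st'.rho y| ≤ 2 := by
  rw [hn.rho_eq]
  have h1 := hρ y
  have h2 : |∑ a, Real.cos (lam * (mu a * phi B a y))| ≤ 4 := by
    refine (Finset.abs_sum_le_sum_abs _ _).trans ?_
    refine (Finset.sum_le_sum fun b _ => Real.abs_cos_le_one _).trans ?_
    simp
  have h3 : |ε * ∑ a, Real.cos (lam * (mu a * phi B a y))| ≤ 1 / 2 := by
    rw [abs_mul, abs_of_pos hε]
    calc ε * |∑ a, Real.cos (lam * (mu a * phi B a y))| ≤ 1 / 8 * 4 :=
          mul_le_mul hε8 h2 (abs_nonneg _) (by norm_num)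
      _ = 1 / 2 := by norm_num
  calc _ ≤ |st.rho y| + |ε * ∑ a, Real.cos (lam * (mu a * phi B a y))| := abs_add_le _ _
    _ ≤ 2 := by linarith

theorem next_error {st : Stage B} {ε : ℝ} (hε : 0 < ε) (hε8 : ε ≤ 1 / 8)
    (hρ : ∀ y, |st.rho y| ≤ 3 / 2) (sd : StepData st ε) (η : ℝ) (hη : 0 < η)
    (hsmall : ∀ z : X, |z.1| ≤ B.T → SS B z < 4 * sd.sp ^ 2 → ∀ k, mm B k z ≤ η / 2) :
    ∃ Lam, ∀ lam, Lam ≤ lam → ∀ st' : Stage B, Next sd lam st' →
      ∀ i k z, |z.1| ≤ B.T → |st'.E i k z| ≤ η := by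
  obtain ⟨D, hD0, hD⟩ := next_main hε hε8 hρ sd
  refine ⟨max 1 (2 * D / η), fun lam hlam st' hn i k z hzT => ?_⟩
  have h1 : 1 ≤ lam := (le_max_left _ _).trans hlam
  have h2 : 2 * D / η ≤ lam := (le_max_right _ _).trans hlam
  have hl0 : 0 < lam := by linarith
  have hDl : D / lam ≤ η / 2 := by
    rw [div_le_iff₀ hη] at h2
    rw [div_le_iff₀ hl0]
    linarith
  by_cases hx : ‖z.2 - B.x0‖ ≤ 1
  · have hz : z ∈ KK B := ⟨abs_le.1 hzT, by rwa [mem_closedBall_iff_norm]⟩
    have hmain := hD lam h1 st' hn i k z hz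
    have hchi := sd.chi_range z
    by_cases hc : sd.chi z = 1
    · rw [hc, sub_self, zero_mul, sub_zero] at hmain
      linarith
    · have hS : SS B z < 4 * sd.sp ^ 2 := by
        by_contra hcon
        exact hc (sd.chi_one z hzT (not_lt.1 hcon))
      have hS' : SS B z < st.s ^ 2 := by
        refine hS.trans_le ?_
        have := sd.sp_le
        have := sd.sp_pos
        nlinarith
      have e4 : |st.dens i z + ε * st.CC lam i z| ≤ 2 := by
        have h1 : |st.dens i z| ≤ 3 / 2 := hρ _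
        have h2 := CC_le st lam i z
        have h3 : |ε * st.CC lam i z| ≤ 1 / 2 := by
          rw [abs_mul, abs_of_pos hε]
          calc ε * |st.CC lam i z| ≤ 1 / 8 * 4 := mul_le_mul hε8 h2 (abs_nonneg _) (by norm_num)
            _ = 1 / 2 := by norm_num
        calc _ ≤ |st.dens i z| + |ε * st.CC lam i z| := abs_add_le _ _
          _ ≤ 2 := by linarith
      have hb := st.base_error ε (st.CC lam i z) i k z hS' e4
      have hm := hsmall z hzT hS k
      have h5 : |(1 - sd.chi z) * (st.E i k z + ε * st.CC lam i z * acc (st.u i) st.f k z)|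
          ≤ η / 2 := by
        rw [abs_mul, abs_of_nonneg (by linarith [hchi.2])]
        calc _ ≤ 1 * (η / 2) := mul_le_mul (by linarith [hchi.1]) (hb.trans hm) (abs_nonneg _)
              (by norm_num)
          _ = η / 2 := one_mul _
      calc |st'.E i k z| = |(st'.E i k z - (1 - sd.chi z)
            * (st.E i k z + ε * st.CC lam i z * acc (st.u i) st.f k z))
            + (1 - sd.chi z) * (st.E i k z + ε * st.CC lam i z * acc (st.u i) st.f k z)| := by
            congr 1; ring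
        _ ≤ _ := abs_add_le _ _
        _ ≤ D / lam + η / 2 := add_le_add hmain h5
        _ ≤ η := by linarith
  · have hw : ∀ k, B.w k z.2 = 0 := by
      intro k
      by_contra h
      exact hx ((B.w_supp k z.2 h).trans B.hr1)
    have hS0 : SS B z = 0 := by
      unfold SS
      simp [hw]
    have hb := st'.base_error 0 0 i k z (by rw [hS0]; have := st'.s_pos; positivity)
      (by simpa [Stage.dens] using next_rho_le hε hε8 hρ hn (vec (st'.Y i) z))
    have hm := hsmall z hzT (by rw [hS0]; have := sd.sp_pos; positivity) k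
    have : |st'.E i k z| ≤ mm B k z := by simpa using hb
    linarith

end H37.MHD
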