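import Pool.Agent.H92.MHD_Region
import Pool.Agent.H92.MHD_Stage0
import Pool.Agent.H73.MHD_Next
import Pool.Agent.H70.MHD.Close
import Pool.Agent.H37.MHD.NextError
import Pool.Agent.H51.MHD.StepData

/-!
# MP_59296a_an: one step of the iteration and the sequence of stages
-/

open MeasureTheory Set Filter Topology
open scoped ContDiff
open H36.MHD

noncomputable section

namespace H37.MHD

variable {B : Bg}

/-! ## One step -/

/-- One step, with the estimate of the force stated for every bound of the error. -/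
theorem one_step' (st : Stage B) (hρ : ∀ y, |st.rho y| ≤ 3 / 2) (ε η δ : ℝ) (hε : 0 < ε)
    (hε8 : ε ≤ 1 / 8) (hη : 0 < η) (hδ : 0 < δ) :
    ∃ st' : Stage B,
      (∀ y, |st'.rho y - st.rho y| ≤ 4 * ε) ∧
      (∀ i z, |z.1| ≤ B.T → |st'.dens i z - st.dens i z| ≤ 4 * ε + δ) ∧
      (∀ i k z, |st'.u i k z - st.u i k z| ≤ δ) ∧
      (∀ i k j z, |dx j (st'.u i k) z - dx j (st.u i k) z| ≤ δ) ∧
      (∀ e, (∀ i k z, |z.1| ≤ B.T → |st.E i k z| ≤ e) →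
        ∀ k z, |z.1| ≤ B.T → |st'.f k z - st.f k z| ≤ 4 * e / ε) ∧
      (∀ i k z, |z.1| ≤ B.T → |st'.E i k z| ≤ η) := by
  obtain ⟨s1, hs1, hsm⟩ := small_region B (η / 2) (by positivity)
  have hspos : 0 < min (st.s / 2) (s1 / 2) := lt_min (by linarith [st.s_pos]) (by linarith)
  have hle1 : min (st.s / 2) (s1 / 2) ≤ st.s / 2 := min_le_left _ _
  have hle2 : min (st.s / 2) (s1 / 2) ≤ s1 / 2 := min_le_right _ _
  obtain ⟨sd, hsd⟩ := exists_stepData st ε hε (min (st.s / 2) (s1 / 2)) hspos (by linarith)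
  obtain ⟨L1, hL1⟩ := exists_next sd
  obtain ⟨L2, hL2⟩ := next_close hε sd δ hδ
  obtain ⟨L3, hL3⟩ := next_error hε hε8 hρ sd η hη (by
    intro z hz hS k
    refine hsm z hz (lt_of_lt_of_le hS ?_) k
    rw [hsd]
    nlinarith)
  obtain ⟨st', hst'⟩ := hL1 (max L1 (max L2 L3)) (le_max_left _ _)
  obtain ⟨h1, h2, h3, h4⟩ := hL2 _ ((le_max_left L2 L3).trans (le_max_right _ _)) st' hst'
  refine ⟨st', ?_, h1, h2, h3, h4,
    hL3 _ ((le_max_right L2 L3).trans (le_max_right _ _)) st' hst'⟩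
  intro y
  rw [hst'.rho_eq y]
  have h5 : |∑ a, Real.cos (max L1 (max L2 L3) * (mu a * phi B a y))| ≤ 4 := by
    refine (Finset.abs_sum_le_sum_abs _ _).trans ?_
    refine (Finset.sum_le_sum (fun a _ => Real.abs_cos_le_one _)).trans ?_
    simp
  rw [add_sub_cancel_left, abs_mul, abs_of_pos hε]
  nlinarith

theorem one_step (st : Stage B) (hρ : ∀ y, |st.rho y| ≤ 3 / 2) (e ε η δ : ℝ) (hε : 0 < ε)
    (hε8 : ε ≤ 1 / 8) (hη : 0 < η) (hδ : 0 < δ)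
    (hE : ∀ i k z, |z.1| ≤ B.T → |st.E i k z| ≤ e) :
    ∃ st' : Stage B,
      (∀ y, |st'.rho y - st.rho y| ≤ 4 * ε) ∧
      (∀ i z, |z.1| ≤ B.T → |st'.dens i z - st.dens i z| ≤ 4 * ε + δ) ∧
      (∀ i k z, |st'.u i k z - st.u i k z| ≤ δ) ∧
      (∀ i k j z, |dx j (st'.u i k) z - dx j (st.u i k) z| ≤ δ) ∧
      (∀ k z, |z.1| ≤ B.T → |st'.f k z - st.f k z| ≤ 4 * e / ε) ∧
      (∀ i k z, |z.1| ≤ B.T → |st'.E i k z| ≤ η) := by
  obtain ⟨st', h1, h2, h3, h4, h5, h6⟩ := one_step' st hρ ε η δ hε hε8 hη hδ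
  exact ⟨st', h1, h2, h3, h4, h5 e hE, h6⟩

/-! ## The sequence -/

/-- The property kept along the sequence. -/
def Good (n : ℕ) (st : Stage B) : Prop :=
  (∀ y, |st.rho y - 1| ≤ 1 / 4 * (1 - (1 / 2 : ℝ) ^ n)) ∧
  (1 ≤ n → ∀ i k z, |z.1| ≤ B.T → |st.E i k z| ≤ (1 / 2 : ℝ) ^ (2 * n + 6))

/-- The relation between consecutive stages. -/
def Rel (n : ℕ) (st st' : Stage B) : Prop :=
  (∀ y, |st'.rho y - st.rho y| ≤ (1 / 2 : ℝ) ^ n) ∧
  (∀ i z, |z.1| ≤ B.T → |st'.dens i z - st.dens i z| ≤ (1 / 2 : ℝ) ^ n) ∧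
  (∀ i k z, |st'.u i k z - st.u i k z| ≤ (1 / 2 : ℝ) ^ n) ∧
  (∀ i k j z, |dx j (st'.u i k) z - dx j (st.u i k) z| ≤ (1 / 2 : ℝ) ^ n) ∧
  (∀ e, (∀ i k z, |z.1| ≤ B.T → |st.E i k z| ≤ e) →
    ∀ k z, |z.1| ≤ B.T → |st'.f k z - st.f k z| ≤ 4 * e / (1 / 2 : ℝ) ^ (n + 5))

theorem good_step (n : ℕ) (st : Stage B) (h : Good n st) :
    ∃ st' : Stage B, Good (n + 1) st' ∧ Rel n st st' := by
  have hp : (0 : ℝ) < (1 / 2 : ℝ) ^ n := by positivity
  have hp1 : (1 / 2 : ℝ) ^ n ≤ 1 := pow_le_one₀ (by norm_num) (by norm_num)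
  have e5 : (1 / 2 : ℝ) ^ (n + 5) = (1 / 2 : ℝ) ^ n / 32 := by rw [pow_add]; norm_num; ring
  have hρ : ∀ y, |st.rho y| ≤ 3 / 2 := by
    intro y
    have h1 := abs_le.1 (h.1 y)
    rw [abs_le]
    constructor <;> nlinarith [h1.1, h1.2]
  obtain ⟨st', h1, h2, h3, h4, h5, h6⟩ := one_step' st hρ ((1 / 2 : ℝ) ^ (n + 5))
    ((1 / 2 : ℝ) ^ (2 * (n + 1) + 6)) ((1 / 2 : ℝ) ^ n / 8) (by positivity)
    (by rw [e5]; nlinarith) (by positivity) (by positivity)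
  refine ⟨st', ⟨?_, fun _ => h6⟩, ?_, ?_, ?_, ?_, h5⟩
  · intro y
    have ha := abs_le.1 (h.1 y)
    have hb := abs_le.1 (h1 y)
    rw [e5] at hb
    have e1 : (1 / 2 : ℝ) ^ (n + 1) = (1 / 2 : ℝ) ^ n / 2 := by rw [pow_succ]; ring
    rw [abs_le, e1]
    constructor <;> nlinarith [ha.1, ha.2, hb.1, hb.2]
  · intro y
    refine (h1 y).trans ?_
    rw [e5]; nlinarith
  · intro i z hz
    refine (h2 i z hz).trans ?_
    rw [e5]; nlinarith
  · intro i k z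
    exact (h3 i k z).trans (by linarith)
  · intro i k j z
    exact (h4 i k j z).trans (by linarith)

theorem exists_sequence (B : Bg) : ∃ st : ℕ → Stage B,
    (∀ n y, |(st n).rho y - 1| ≤ 1 / 4) ∧
    (∀ n y, |(st (n + 1)).rho y - (st n).rho y| ≤ (1 / 2) ^ n) ∧
    (∀ n i z, |z.1| ≤ B.T → |(st (n + 1)).dens i z - (st n).dens i z| ≤ (1 / 2) ^ n) ∧
    (∀ n i k z, |(st (n + 1)).u i k z - (st n).u i k z| ≤ (1 / 2) ^ n) ∧
    (∀ n i k j z, |dx j ((st (n + 1)).u i k) z - dx j ((st n).u i k) z| ≤ (1 / 2) ^ n) ∧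
    (∀ n k z, |z.1| ≤ B.T → |(st (n + 2)).f k z - (st (n + 1)).f k z| ≤ (1 / 2) ^ n) ∧
    (∀ n i k z, |z.1| ≤ B.T → |(st (n + 1)).E i k z| ≤ (1 / 2) ^ n) := by
  obtain ⟨st0, hst0⟩ := exists_stage0 B
  have hg0 : Good 0 st0 := by
    refine ⟨fun y => by simp [hst0 y], fun h => absurd h (by norm_num)⟩
  choose F hF using fun (n : ℕ) (st : {st : Stage B // Good n st}) => good_step n st.1 st.2
  let sq : (n : ℕ) → {st : Stage B // Good n st} := fun n =>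
    Nat.rec ⟨st0, hg0⟩ (fun m st => ⟨F m st, (hF m st).1⟩) n
  have hsq : ∀ n, Rel n (sq n).1 (sq (n + 1)).1 := fun n => (hF n (sq n)).2
  have hE : ∀ n i k z, |z.1| ≤ B.T → |(sq (n + 1)).1.E i k z| ≤ (1 / 2 : ℝ) ^ (2 * n + 8) := by
    intro n i k z hz
    have := (sq (n + 1)).2.2 (by omega) i k z hz
    have e : 2 * (n + 1) + 6 = 2 * n + 8 := by ring
    rwa [e] at this
  refine ⟨fun n => (sq n).1, ?_, fun n => (hsq n).1, fun n => (hsq n).2.1, fun n => (hsq n).2.2.1,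
    fun n => (hsq n).2.2.2.1, ?_, ?_⟩
  · intro n y
    refine ((sq n).2.1 y).trans ?_
    have hp : (0 : ℝ) < (1 / 2 : ℝ) ^ n := by positivity
    linarith
  · intro n k z hz
    refine ((hsq (n + 1)).2.2.2.2 _ (hE n) k z hz).trans ?_
    have hp : (0 : ℝ) < (1 / 2 : ℝ) ^ n := by positivity
    have e1 : (1 / 2 : ℝ) ^ (2 * n + 8) = (1 / 2 : ℝ) ^ n * (1 / 2 : ℝ) ^ n / 256 := by
      rw [pow_add, two_mul, pow_add]; norm_num; ring
    have e2 : (1 / 2 : ℝ) ^ (n + 1 + 5) = (1 / 2 : ℝ) ^ n / 64 := by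
      rw [add_assoc, pow_add]; norm_num; ring
    rw [e1, e2]
    field_simp
    norm_num
  · intro n i k z hz
    refine (hE n i k z hz).trans ?_
    exact pow_le_pow_of_le_one (by norm_num) (by norm_num) (by omega)

end H37.MHD
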